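import Pool.Agent.Q38.HC.Main

/-!
# The `H`-inequality for almost all admissible triples, of all heights

`H (n) = γ (n) / (log γ (n)) ^ ω (n)`. For every `M > 1/3` all but `C X ^ (2/3 - ν)` of the
`∼ κ X ^ (2/3)` admissible triples with `γ (abc) ≤ X` satisfy `c < H (abc) ^ M`; there is no
restriction on the size of `c`. For `0 ≤ M ≤ 1/3` no triple satisfies it. With `M = 1 + ε` this is
the inequality of the conjecture (with the constant `1`).
-/

set_option autoImplicit false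

namespace Pool.Agent.Results.MP_14cf73_nt.AlmostAllByRadical

open Filter Topology

/-- the product of the primes dividing `n` -/
def radical (n : ℕ) : ℕ := ∏ p ∈ n.primeFactors, p

/-- the number of primes dividing `n` -/
def omega (n : ℕ) : ℕ := n.primeFactors.card

/-- `H (n) = γ (n) / (log γ (n)) ^ ω (n)` -/
noncomputable def H (n : ℕ) : ℝ := (radical n : ℝ) / Real.log (radical n) ^ omega n

/-- all admissible triples `(a, b, a + b)` with `a ≤ b`, written `(a, b)`, of radical at most `X`: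
`a` and `b` are coprime and positive; there is no condition on the size of `c = a + b` -/
def triples (X : ℝ) : Set (ℕ × ℕ) :=
  {p | 0 < p.1 ∧ p.1 ≤ p.2 ∧ Nat.Coprime p.1 p.2 ∧
    (radical (p.1 * p.2 * (p.1 + p.2)) : ℝ) ≤ X}

/-- those among them with `c ≥ H (abc) ^ M` -/
def exceptions (M X : ℝ) : Set (ℕ × ℕ) :=
  {p | p ∈ triples X ∧ H (p.1 * p.2 * (p.1 + p.2)) ^ M ≤ ((p.1 + p.2 : ℕ) : ℝ)}

/-- **The `H`-inequality holds for almost all admissible triples exactly for the exponents above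
`1/3`.** (1) The number of all admissible triples with `γ (abc) ≤ X`, of whatever height, is finite
and asymptotic to `κ X ^ (2/3)`, where `κ > 0`. (2) For every `M > 1/3` at most `C X ^ (2/3 - ν)` of
them have `c ≥ H (abc) ^ M`. (3) For `0 ≤ M ≤ 1/3` all of them do. -/
theorem result :
    (∀ X : ℝ, (triples X).Finite) ∧
    (∃ κ : ℝ, 0 < κ ∧
      Tendsto (fun X : ℝ => ((triples X).ncard : ℝ) / X ^ ((2 : ℝ) / 3)) atTop (𝓝 κ)) ∧
    (∀ M : ℝ, 1 / 3 < M → ∃ ν C : ℝ, 0 < ν ∧ 0 < C ∧ ∀ X : ℝ, 1 ≤ X →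
      ((exceptions M X).ncard : ℝ) ≤ C * X ^ (2 / 3 - ν)) ∧
    (∀ M : ℝ, 0 ≤ M → M ≤ 1 / 3 → ∀ X : ℝ, exceptions M X = triples X) := by
  obtain ⟨κ, hκ, h1, -⟩ := Pool.Agent.Y911.AA.main
  refine ⟨Pool.Agent.Y911.AA.triples_finite', ⟨κ, hκ, h1⟩,
    fun M hM => Pool.Agent.Q38.HC.main M hM, fun M h0 hM X => ?_⟩
  ext p
  exact ⟨fun h => h.1, fun h => ⟨h, (Pool.Agent.Q38.HC.below (X := X) h h0 hM).le⟩⟩

end Pool.Agent.Results.MP_14cf73_nt.AlmostAllByRadical
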