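import Mathlib
import Pool.Agent.Q239.H.HIneq

/-!
# The inequality `c < C(ε) H(abc) ^ (1 + ε)` for all triples from triples of almost-powers

`γ(n)` is the radical, `ω(n)` the number of prime divisors, `H(n) = γ(n) / (log γ(n)) ^ ω(n)`. Let
`(p, q, r)` be one of the three signatures `(3,3,3)`, `(2,4,4)`, `(2,3,6)` with
`1/p + 1/q + 1/r = 1`, and let `δ > 0` be arbitrarily small. The statement of Q1 (for every `ε > 0`
there is `C(ε)` with `c < C(ε) H(abc) ^ (1 + ε)` for all coprime `a + b = c`) is equivalent to its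
restriction to the triples whose terms are, in some order, `u x ^ p`, `v y ^ q`, `w z ^ r` with
`u, v, w ≤ c ^ δ`.

Proof. The plane `x₀ + x₁ + x₂ = 0` has self-maps which are unramified outside of `x₀ x₁ x₂ = 0` and
map this set to itself, and which preserve the shape `(u₀ x ^ p, u₁ y ^ q, u₂ z ^ r)` with
coefficients that stay fixed (up to bounded factors), while the height `h` becomes `h ^ d`; they are
iterated. By the Riemann-Hurwitz formula the radical grows by the factor `h ^ (d - 1)` at most. All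
prime divisors of the given triple (up to boundedly many) divide the new one, and its radical is not
much smaller, so the factor `(log γ) ^ ω` by which `γ` is divided decreases at most by a factor
`(log c) ^ O(1)`; nothing is lost in the exponent `1 + ε`.
-/

namespace Pool.Agent.Results.MP_14cf73_nt.AlmostPowers

/-- the radical `γ(m)`: the product of the distinct primes dividing `m` -/
def γ (m : ℕ) : ℕ := ∏ p ∈ m.primeFactors, p

/-- `H(n) = γ(n) / (log γ(n)) ^ ω(n)` (with `0 ^ 0 = 1`) -/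
noncomputable def H (n : ℕ) : ℝ := (γ n : ℝ) / (Real.log (γ n)) ^ n.primeFactors.card

/-- the inequality of Q1 for all `ε`, for the triples of coprime positive integers `a + b = c` in the
class `P` -/
def InequalityFor (P : ℕ → ℕ → ℕ → Prop) : Prop :=
  ∀ ε : ℝ, 0 < ε → ∃ C : ℝ, ∀ a b c : ℕ, 0 < a → 0 < b → Nat.Coprime a b → a + b = c →
    P a b c → (c : ℝ) < C * H (a * b * c) ^ (1 + ε)

/-- the statement of Q1: the inequality for all triples -/
def Q1 : Prop :=
  ∀ ε : ℝ, 0 < ε → ∃ C : ℝ, ∀ a b c : ℕ, 0 < a → 0 < b → Nat.Coprime a b → a + b = c →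
    (c : ℝ) < C * H (a * b * c) ^ (1 + ε)

/-- In some order, the terms are `u x ^ p`, `v y ^ q`, `w z ^ r` with `u, v, w ≤ c ^ δ`. -/
def AlmostPower (p q r : ℕ) (δ : ℝ) (a b c : ℕ) : Prop :=
  ∃ u v w x y z : ℕ, [a, b, c].Perm [u * x ^ p, v * y ^ q, w * z ^ r] ∧
    (u : ℝ) ≤ (c : ℝ) ^ δ ∧ (v : ℝ) ≤ (c : ℝ) ^ δ ∧ (w : ℝ) ≤ (c : ℝ) ^ δ

theorem Q1_iff : Q1 ↔ Pool.Agent.Q239.ABC.HFor (fun _ _ _ => True) :=
  ⟨fun h ε hε => by
    obtain ⟨κ, hκ⟩ := h ε hε
    exact ⟨κ, fun a b c ha hb hab hc _ => hκ a b c ha hb hab hc⟩,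
   fun h ε hε => by
    obtain ⟨κ, hκ⟩ := h ε hε
    exact ⟨κ, fun a b c ha hb hab hc => hκ a b c ha hb hab hc trivial⟩⟩

/-- The inequality of Q1 for all triples is equivalent to its restriction to triples of
almost-powers with the exponents `(3,3,3)`, `(2,4,4)` or `(2,3,6)`, the coefficients being at most
`c ^ δ`, for every `δ > 0`. -/
theorem result (p q r : ℕ) (hs : (p, q, r) = (3, 3, 3) ∨ (p, q, r) = (2, 4, 4) ∨
    (p, q, r) = (2, 3, 6)) (δ : ℝ) (hδ : 0 < δ) : InequalityFor (AlmostPower p q r δ) ↔ Q1 := by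
  refine ⟨fun h => ?_, fun h => Pool.Agent.Q239.ABC.H_of_all (Q1_iff.mp h)⟩
  rcases hs with hs | hs | hs <;> simp only [Prod.mk.injEq] at hs <;>
    obtain ⟨rfl, rfl, rfl⟩ := hs
  · obtain ⟨D, hD⟩ := Pool.Agent.Q239.ABC.trans_three δ hδ
    exact Q1_iff.mpr (hD.H h)
  · obtain ⟨D, hD⟩ := Pool.Agent.Q239.ABC.trans_four δ hδ
    exact Q1_iff.mpr (hD.H h)
  · obtain ⟨D, hD⟩ := Pool.Agent.Q239.ABC.trans_six δ hδ
    exact Q1_iff.mpr (hD.H h)

end Pool.Agent.Results.MP_14cf73_nt.AlmostPowers
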