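import Pool.Agent.Q44.Triple
import Pool.Agent.Results.MP_14cf73_nt.AlmostAllByRadical

/-!
# The `H`-inequality for the abc-triples given by continued fractions

`H (n) = γ (n) / (log γ (n)) ^ ω (n)`, where `γ` is the radical and `ω` the number of prime divisors. For a rational
number `a / c` between `0` and `1`, in lowest terms, we consider the admissible triple `a + (c - a) = c`. Let `M > 1/3`.
For almost every real number `α`, indeed for all irrational `α` outside a set of Hausdorff dimension smaller than one,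
all integers `u, v, w, z` with `u z ≠ v w` and all but finitely many convergents `r` of the continued fraction of `α` the
triple given by `(u r + v) / (w r + z)`, if this number is between `0` and `1`, satisfies `c < H(abc) ^ M`. The same for
the rational approximations of other qualities. The case `M = 1` is stronger than the inequality of the problem.
-/

set_option autoImplicit false

namespace Pool.Agent.Results.MP_14cf73_nt.GoodApproximations

open Pool.Agent.Q44.CF

/-- the product of the primes dividing `n` -/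
def radical (n : ℕ) : ℕ := ∏ p ∈ n.primeFactors, p

/-- the number of primes dividing `n` -/
def omega (n : ℕ) : ℕ := n.primeFactors.card

/-- `H (n) = γ (n) / (log γ (n)) ^ ω (n)` -/
noncomputable def H (n : ℕ) : ℝ := (radical n : ℝ) / Real.log (radical n) ^ omega n

/-- the triple `(a, c - a, c)`, where `0 < r = a / c < 1` in lowest terms, satisfies `c < H (abc) ^ M` -/
def Good (M : ℝ) (r : ℚ) : Prop :=
  0 < r → r < 1 → (r.den : ℝ) < H (r.num.natAbs * (r.den - r.num.natAbs) * r.den) ^ M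

open Pool.Agent.Results.MP_14cf73_nt.AlmostAllByRadical in
lemma ratFew {M ν C : ℝ} (hν : 0 < ν) (hC : 0 < C)
    (h : ∀ X : ℝ, 1 ≤ X → ((exceptions M X).ncard : ℝ) ≤ C * X ^ (2 / 3 - ν)) :
    RatFew (2 - 3 * ν) (fun r => ¬ Good M r) := by
  intro t ht
  refine ⟨2 * C, fun N hN => ?_⟩
  have hN1 : (1 : ℝ) ≤ N := by exact_mod_cast hN
  have hN0 : (0 : ℝ) < N := by linarith
  have hfin : (exceptions M ((N : ℝ) ^ 3)).Finite :=
    (AlmostAllByRadical.result.1 _).subset fun p hp => hp.1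
  have hE : ((exceptions M ((N : ℝ) ^ 3)).ncard : ℝ) ≤ C * (N : ℝ) ^ t := by
    refine (h _ (one_le_pow₀ hN1)).trans (mul_le_mul_of_nonneg_left ?_ hC.le)
    rw [← Real.rpow_natCast, ← Real.rpow_mul hN0.le]
    refine Real.rpow_le_rpow_of_exponent_le hN1 ?_
    push_cast
    linarith
  have hrad : ∀ n : ℕ, n ≠ 0 → AlmostAllByRadical.radical n ≤ n := fun n hn =>
    Nat.le_of_dvd (Nat.pos_of_ne_zero hn) (Nat.prod_primeFactors_dvd n)
  have hmem : ∀ a b : ℕ, 0 < a → a ≤ b → Nat.Coprime a b → a + b ≤ N →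
      ¬ (((a + b : ℕ) : ℝ) < AlmostAllByRadical.H (a * b * (a + b)) ^ M) → (a, b) ∈ exceptions M ((N : ℝ) ^ 3) := by
    intro a b ha hab hc hN2 hH
    refine ⟨⟨ha, hab, hc, ?_⟩, not_lt.1 hH⟩
    have h1 : AlmostAllByRadical.radical (a * b * (a + b)) ≤ N ^ 3 := by
      refine (hrad _ (by have : 0 < b := by omega
                         positivity)).trans ?_
      calc a * b * (a + b) ≤ N * N * N :=
            Nat.mul_le_mul (Nat.mul_le_mul (by omega) (by omega)) (by omega)
        _ = N ^ 3 := by ring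
    exact_mod_cast h1
  set S1 : Set ℚ := {r : ℚ | (r.num.natAbs ≤ N ∧ r.den ≤ N ∧ ¬ Good M r) ∧ r.num.natAbs ≤ r.den - r.num.natAbs}
    with hS1
  set S2 : Set ℚ := {r : ℚ | (r.num.natAbs ≤ N ∧ r.den ≤ N ∧ ¬ Good M r) ∧ r.den - r.num.natAbs ≤ r.num.natAbs}
    with hS2
  have hcop : ∀ r : ℚ, 0 < r → r < 1 → Nat.Coprime r.num.natAbs (r.den - r.num.natAbs) := by
    intro r h0 h1
    exact (Nat.coprime_sub_self_right (num_lt h0 h1).2.le).2 r.reduced
  have hpos : ∀ r : ℚ, ¬ Good M r → 0 < r ∧ r < 1 ∧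
      ¬ ((r.den : ℝ) < H (r.num.natAbs * (r.den - r.num.natAbs) * r.den) ^ M) := by
    intro r hr
    unfold Good at hr
    push Not at hr
    exact ⟨hr.1, hr.2.1, not_lt.2 hr.2.2⟩
  have hext : ∀ r r' : ℚ, 0 < r → 0 < r' → r.num.natAbs = r'.num.natAbs → r.den = r'.den → r = r' := by
    intro r r' h0 h0' h1 h2
    have h5 : 0 < r.num := Rat.num_pos.2 h0
    have h6 : 0 < r'.num := Rat.num_pos.2 h0'
    exact Rat.ext (by omega) h2
  have hb1 : (S1.ncard : ℝ) ≤ C * (N : ℝ) ^ t := by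
    refine le_trans (Nat.cast_le.2 ?_) hE
    refine Set.ncard_le_ncard_of_injOn (fun r : ℚ => ((r.num.natAbs, r.den - r.num.natAbs) : ℕ × ℕ)) ?_ ?_ hfin
    · rintro r ⟨⟨h1, h2, h3⟩, h4⟩
      obtain ⟨h5, h6, h7⟩ := hpos r h3
      obtain ⟨h8, h9⟩ := num_lt h5 h6
      have e : r.num.natAbs + (r.den - r.num.natAbs) = r.den := by omega
      refine hmem _ _ h8 h4 (hcop r h5 h6) (by omega) ?_
      rw [e]
      exact h7
    · rintro r ⟨⟨-, -, h3⟩, -⟩ r' ⟨⟨-, -, h3'⟩, -⟩ he
      obtain ⟨h5, h6, -⟩ := hpos r h3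
      obtain ⟨h5', h6', -⟩ := hpos r' h3'
      obtain ⟨h8, h9⟩ := num_lt h5 h6
      obtain ⟨h8', h9'⟩ := num_lt h5' h6'
      simp only [Prod.mk.injEq] at he
      exact hext r r' h5 h5' he.1 (by omega)
  have hb2 : (S2.ncard : ℝ) ≤ C * (N : ℝ) ^ t := by
    refine le_trans (Nat.cast_le.2 ?_) hE
    refine Set.ncard_le_ncard_of_injOn (fun r : ℚ => ((r.den - r.num.natAbs, r.num.natAbs) : ℕ × ℕ)) ?_ ?_ hfin
    · rintro r ⟨⟨h1, h2, h3⟩, h4⟩
      obtain ⟨h5, h6, h7⟩ := hpos r h3
      obtain ⟨h8, h9⟩ := num_lt h5 h6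
      have e : r.den - r.num.natAbs + r.num.natAbs = r.den := by omega
      refine hmem _ _ (by omega) h4 (hcop r h5 h6).symm (by omega) ?_
      rw [e, mul_comm (r.den - r.num.natAbs) r.num.natAbs]
      exact h7
    · rintro r ⟨⟨-, -, h3⟩, -⟩ r' ⟨⟨-, -, h3'⟩, -⟩ he
      obtain ⟨h5, h6, -⟩ := hpos r h3
      obtain ⟨h5', h6', -⟩ := hpos r' h3'
      obtain ⟨h8, h9⟩ := num_lt h5 h6
      obtain ⟨h8', h9'⟩ := num_lt h5' h6'
      simp only [Prod.mk.injEq] at he
      exact hext r r' h5 h5' he.2 (by omega)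
  have hsub : {r : ℚ | r.num.natAbs ≤ N ∧ r.den ≤ N ∧ ¬ Good M r} ⊆ S1 ∪ S2 := by
    intro r hr
    rcases le_total r.num.natAbs (r.den - r.num.natAbs) with h1 | h1
    · exact Or.inl ⟨hr, h1⟩
    · exact Or.inr ⟨hr, h1⟩
  have hf1 : (S1 ∪ S2).Finite := by
    refine (fin_rat N).subset ?_
    rintro r (⟨⟨h1, h2, -⟩, -⟩ | ⟨⟨h1, h2, -⟩, -⟩) <;> exact ⟨h1, h2⟩
  calc (({r : ℚ | r.num.natAbs ≤ N ∧ r.den ≤ N ∧ ¬ Good M r}.ncard : ℕ) : ℝ) ≤ ((S1.ncard + S2.ncard : ℕ) : ℝ) :=
        Nat.cast_le.2 ((Set.ncard_le_ncard hsub hf1).trans (Set.ncard_union_le _ _))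
    _ ≤ 2 * C * (N : ℝ) ^ t := by
        push_cast
        linarith

/-- **Theorem.** For every `M > 1/3` there is `θ < 2` such that, in the sense of `AtRationalApproximations θ` (images
under integral Möbius transformations of the convergents of the continued fraction, or of other good rational
approximations, of all real numbers outside sets of small Hausdorff dimension), the admissible triples `(a, c - a, c)`
given by rational numbers `a / c` satisfy `c < H (abc) ^ M`. -/
theorem result : ∀ M : ℝ, 1 / 3 < M → ∃ θ : ℝ, 0 ≤ θ ∧ θ < 2 ∧ AtRationalApproximations θ (Good M) := by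
  intro M hM
  obtain ⟨ν, C, hν, hC, h⟩ := AlmostAllByRadical.result.2.2.1 M hM
  refine ⟨max (2 - 3 * ν) 0, le_max_right _ _, max_lt (by linarith) (by norm_num), ?_⟩
  refine atRat_of (B := fun r => ¬ Good M r) (le_max_right _ _) ?_ fun r hr => hr
  intro t ht
  exact ratFew hν hC h t (lt_of_le_of_lt (le_max_left _ _) ht)

end Pool.Agent.Results.MP_14cf73_nt.GoodApproximations
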