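import Mathlib
import Pool.Agent.Q239.H.HIneq

/-!
# The inequality `c < C(ε) H(abc) ^ (1 + ε)` for all triples from certain triples of perfect powers

`γ(n)` is the radical, `ω(n)` the number of prime divisors, `H(n) = γ(n) / (log γ(n)) ^ ω(n)`. The
statement of Q1 (for every `ε > 0` there is `C(ε)` with `c < C(ε) H(abc) ^ (1 + ε)` for all coprime
`a + b = c`) holds if (and only if) it holds for the triples which consist of two perfect cubes and a
perfect square. The same is true for the triples which consist of two squares and a `k`-th power,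
and for the triples which contain two `k`-th powers, for every fixed `k ≥ 1`.

Proof. For `(2,3,3)`: let `x = u (u³ + 8 v³)`, `y = 4 v (v³ - u³)`, `z = u⁶ - 20 u³ v³ - 8 v⁶`. Then
`x³ + y³ = z²`, and `x³`, `y³`, `z²` is a map of degree `12` which is unramified outside of three
points and which maps the three points `u v (u - v) = 0` to these; two of the three members of a
given triple can be chosen as `u`, `v` (up to signs) in such a way that `x` and `y` are coprime. By
the Riemann-Hurwitz formula the radical `γ` is multiplied by at most a constant times `c ^ 11` while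
`c` becomes `c ^ 12`. All prime divisors of the given triple divide the new one, and `γ` does not
become much smaller, so the factor `(log γ) ^ ω` by which `γ` is divided decreases at most by a factor
`(log c) ^ O(1)`: nothing is lost in the exponent `1 + ε`. In a similar way for `(2,2,k)` and
`(1,k,k)`, with the identities `((u ^ k - v ^ k) / 2) ^ 2 + (u v) ^ k = ((u ^ k + v ^ k) / 2) ^ 2`
and `a ^ k + (c ^ k - a ^ k) = c ^ k`.
-/

namespace Pool.Agent.Results.MP_14cf73_nt.PerfectPowers

/-- the radical `γ(m)`: the product of the distinct primes dividing `m` -/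
def γ (m : ℕ) : ℕ := ∏ p ∈ m.primeFactors, p

/-- `H(n) = γ(n) / (log γ(n)) ^ ω(n)` (with `0 ^ 0 = 1`) -/
noncomputable def H (n : ℕ) : ℝ := (γ n : ℝ) / (Real.log (γ n)) ^ n.primeFactors.card

/-- the inequality of Q1 for all `ε`, for the triples of coprime positive integers `a + b = c` in the
class `P` -/
def InequalityFor (P : ℕ → ℕ → ℕ → Prop) : Prop :=
  ∀ ε : ℝ, 0 < ε → ∃ C : ℝ, ∀ a b c : ℕ, 0 < a → 0 < b → Nat.Coprime a b → a + b = c →
    P a b c → (c : ℝ) < C * H (a * b * c) ^ (1 + ε)

/-- the statement of Q1: the inequality for all triples -/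
def Q1 : Prop :=
  ∀ ε : ℝ, 0 < ε → ∃ C : ℝ, ∀ a b c : ℕ, 0 < a → 0 < b → Nat.Coprime a b → a + b = c →
    (c : ℝ) < C * H (a * b * c) ^ (1 + ε)

/-- In some order, the terms are perfect powers with the exponents `p`, `q`, `r`. -/
def Powers (p q r : ℕ) (a b c : ℕ) : Prop :=
  ∃ x y z : ℕ, [a, b, c].Perm [x ^ p, y ^ q, z ^ r]

theorem Q1_iff : Q1 ↔ Pool.Agent.Q239.ABC.HFor (fun _ _ _ => True) :=
  ⟨fun h ε hε => by
    obtain ⟨κ, hκ⟩ := h ε hε
    exact ⟨κ, fun a b c ha hb hab hc _ => hκ a b c ha hb hab hc⟩,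
   fun h ε hε => by
    obtain ⟨κ, hκ⟩ := h ε hε
    exact ⟨κ, fun a b c ha hb hab hc => hκ a b c ha hb hab hc trivial⟩⟩

/-- The inequality of Q1 for all triples is equivalent to its restriction to the triples which
consist of a square and two cubes, to the triples which consist of two squares and a `k`-th power,
and to the triples with two `k`-th powers, for every `k ≥ 1`. -/
theorem result (p q r : ℕ) (hs : (p, q, r) = (2, 3, 3) ∨ (∃ k : ℕ, 1 ≤ k ∧ (p, q, r) = (2, 2, k)) ∨
    ∃ k : ℕ, 1 ≤ k ∧ (p, q, r) = (1, k, k)) : InequalityFor (Powers p q r) ↔ Q1 := by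
  refine ⟨fun h => ?_, fun h => Pool.Agent.Q239.ABC.H_of_all (Q1_iff.mp h)⟩
  rcases hs with hs | ⟨k, hk, hs⟩ | ⟨k, hk, hs⟩ <;> simp only [Prod.mk.injEq] at hs <;>
    obtain ⟨rfl, rfl, rfl⟩ := hs
  · exact Q1_iff.mpr (Pool.Agent.Q239.ABC.trans_two_three_three.H h)
  · exact Q1_iff.mpr ((Pool.Agent.Q239.ABC.trans_two_two_k _ hk).H h)
  · exact Q1_iff.mpr ((Pool.Agent.Q239.ABC.trans_one_k_k _ hk).H h)

end Pool.Agent.Results.MP_14cf73_nt.PerfectPowers
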